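import Mathlib

namespace Pool.Agent.H.MP_cac92d_co

open MeasureTheory ProbabilityTheory Set Real
open scoped ENNReal

def sector (x : ℝ × ℝ) (a b : ℝ) : Set (ℝ × ℝ) :=
  {z | ∃ r, 0 ≤ r ∧ ∃ t ∈ Icc a b, z = (x.1 + r * cos t, x.2 + r * sin t)}

noncomputable def cm {n : ℕ} (c : Fin n → ℝ × ℝ) : Measure (ℝ × ℝ) :=
  ∑ i, (n : ℝ≥0∞)⁻¹ • cond volume (Metric.ball (c i) (1 / 1000))

theorem pr (c : ℝ × ℝ) : IsProbabilityMeasure (cond volume (Metric.ball c (1 / 1000))) :=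
  cond_isProbabilityMeasure_of_finite (Metric.measure_ball_pos _ _ (by norm_num)).ne'
    measure_ball_lt_top.ne

theorem cm_prob {n : ℕ} (hn : n ≠ 0) (c : Fin n → ℝ × ℝ) : IsProbabilityMeasure (cm c) := by
  constructor
  have := pr
  simp only [cm, Measure.finsetSum_apply, Measure.smul_apply, measure_univ, smul_eq_mul, mul_one,
    Finset.sum_const, Finset.card_univ, Fintype.card_fin, nsmul_eq_mul]
  exact ENNReal.mul_inv_cancel (by simpa using hn) (by simp)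

theorem cm_ac {n : ℕ} (c : Fin n → ℝ × ℝ) : cm c ≪ volume := by
  intro s hs
  simp only [cm, Measure.finsetSum_apply, Measure.smul_apply]
  exact Finset.sum_eq_zero fun i _ => by rw [cond_absolutelyContinuous hs, smul_zero]

theorem cm_le {n : ℕ} (c : Fin n → ℝ × ℝ) (S : Set (ℝ × ℝ)) (T : Finset (Fin n))
    (h : ∀ i, ∀ z ∈ S, dist z (c i) < 1 / 1000 → i ∈ T) : cm c S ≤ T.card * (n : ℝ≥0∞)⁻¹ := by
  have := pr
  simp only [cm, Measure.finsetSum_apply, Measure.smul_apply, smul_eq_mul]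
  rw [← Finset.sum_subset (Finset.subset_univ T) fun i _ hi => ?_]
  · rw [← nsmul_eq_mul]
    exact Finset.sum_le_card_nsmul _ _ _ fun i _ => mul_le_of_le_one_right' prob_le_one
  · rw [cond_apply measurableSet_ball,
      show Metric.ball (c i) (1 / 1000) ∩ S = ∅ from
        eq_empty_of_forall_notMem fun z hz => hi (h i z hz.2 hz.1)]
    simp

theorem cm_two {n : ℕ} (c : Fin n → ℝ × ℝ) (S : Set (ℝ × ℝ)) (h : (n : ℝ≥0∞)⁻¹ < cm c S) :
    ∃ i j, i ≠ j ∧ (∃ z ∈ S, dist z (c i) < 1 / 1000) ∧ ∃ z ∈ S, dist z (c j) < 1 / 1000 := by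
  classical
  have k := cm_le c S (Finset.univ.filter fun i => ∃ z ∈ S, dist z (c i) < 1 / 1000)
    fun i z hz hd => Finset.mem_filter.2 ⟨Finset.mem_univ _, z, hz, hd⟩
  have : 1 < (Finset.univ.filter fun i => ∃ z ∈ S, dist z (c i) < 1 / 1000).card := by
    by_contra q
    have q' : ((Finset.univ.filter fun i => ∃ z ∈ S, dist z (c i) < 1 / 1000).card : ℝ≥0∞) ≤ 1 := by
      exact_mod_cast not_lt.1 q
    exact absurd (k.trans (mul_le_of_le_one_left' q')) (not_le.2 h)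
  obtain ⟨i, j, hi, hj, hij⟩ := Finset.one_lt_card_iff.1 this
  exact ⟨i, j, hij, (Finset.mem_filter.1 hi).2, (Finset.mem_filter.1 hj).2⟩

def cr (x p q : ℝ × ℝ) : ℝ := (p.1 - x.1) * (q.2 - x.2) - (p.2 - x.2) * (q.1 - x.1)

theorem cr_pol (x : ℝ × ℝ) (r a s b : ℝ) : cr x (x.1 + r * cos a, x.2 + r * sin a)
    (x.1 + s * cos b, x.2 + s * sin b) = r * s * sin (b - a) := by
  simp only [cr, sin_sub]; ring

theorem ltpi {y : ℝ} (h2 : y ≤ 2 * π) (h : 0 < sin y) : y < π := by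
  by_contra c
  have := sin_nonneg_of_nonneg_of_le_pi (x := y - π) (by linarith) (by linarith)
  rw [sin_sub_pi] at this; linarith

theorem wedge {x p q : ℝ × ℝ} {a b c d : ℝ} (h2 : b < c) (h4 : d < a + 2 * π)
    (hp : p ∈ sector x a b) (hq : q ∈ sector x c d) (h : 0 < cr x p q) :
    (∀ z ∈ sector x b c, 0 ≤ cr x p z ∧ 0 ≤ cr x z q) ∧
    ∀ z ∈ sector x d (a + 2 * π), ¬ (0 < cr x p z ∧ 0 < cr x z q) := by
  obtain ⟨r, hr, u, hu, rfl⟩ := hp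
  obtain ⟨s, hs, v, hv, rfl⟩ := hq
  rw [cr_pol] at h
  have k := ltpi (y := v - u) (by linarith [hu.1, hv.2]) (pos_of_mul_pos_right h (by positivity))
  constructor
  · rintro z ⟨t, ht, w, hw, rfl⟩
    rw [cr_pol, cr_pol]
    exact ⟨mul_nonneg (by positivity) (sin_nonneg_of_nonneg_of_le_pi (by linarith [hu.2, hw.1])
      (by linarith [hw.2, hv.1])), mul_nonneg (by positivity)
      (sin_nonneg_of_nonneg_of_le_pi (by linarith [hw.2, hv.1]) (by linarith [hu.2, hw.1]))⟩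
  · rintro z ⟨t, ht, w, hw, rfl⟩
    rw [cr_pol, cr_pol]
    rintro ⟨g1, g2⟩
    have k1 := ltpi (y := w - u) (by linarith [hu.1, hw.2]) (pos_of_mul_pos_right g1 (by positivity))
    have k2 := pos_of_mul_pos_right g2 (by positivity)
    have := sin_nonneg_of_nonneg_of_le_pi (x := w - v) (by linarith [hv.2, hw.1])
      (by linarith [hu.2, hv.1])
    rw [← neg_sub, sin_neg] at k2; linarith

theorem shift {x : ℝ × ℝ} {a b : ℝ} : sector x a b ⊆ sector x (a + 2 * π) (b + 2 * π) := by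
  rintro z ⟨r, hr, t, ht, rfl⟩
  exact ⟨r, hr, t + 2 * π, ⟨by linarith [ht.1], by linarith [ht.2]⟩, by simp⟩

theorem ne0 {x p q : ℝ × ℝ} {a b c d : ℝ} (h2 : b < c) (h4 : d < a + 2 * π)
    (hp : p ∈ sector x a b) (hq : q ∈ sector x c d)
    (h : 0 < (p.1 - x.1) * (q.1 - x.1) + (p.2 - x.2) * (q.2 - x.2)) : cr x p q ≠ 0 := by
  obtain ⟨r, hr, u, hu, rfl⟩ := hp
  obtain ⟨s, hs, v, hv, rfl⟩ := hq
  rw [cr_pol]
  intro e
  have h' : 0 < r * s * cos (v - u) := by rw [cos_sub]; linarith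
  rcases mul_eq_zero.1 e with e | e
  · rw [e] at h'; simp at h'
  · have : sin (v - u - π) = 0 := by rw [sin_sub_pi, e, neg_zero]
    rw [sin_eq_zero_iff_of_lt_of_lt (by linarith [hu.2, hv.1]) (by linarith [hu.1, hv.2])] at this
    rw [show v - u = π by linarith, cos_pi] at h'
    nlinarith [mul_nonneg hr hs]

theorem both {x p q : ℝ × ℝ} {a b c d : ℝ} (h2 : b < c) (h4 : d < a + 2 * π)
    (hp : p ∈ sector x a b) (hq : q ∈ sector x c d) (h : cr x p q ≠ 0) (P : Set (ℝ × ℝ) → Prop)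
    (P2 : P (sector x b c)) (P4 : P (sector x d (a + 2 * π))) :
    ∃ p' q' S T, (p' = p ∧ q' = q ∨ p' = q ∧ q' = p) ∧ 0 < cr x p' q' ∧ P S ∧ P T ∧
      (∀ z ∈ S, 0 ≤ cr x p' z ∧ 0 ≤ cr x z q') ∧ ∀ z ∈ T, ¬ (0 < cr x p' z ∧ 0 < cr x z q') := by
  rcases h.lt_or_gt with h | h
  · have h' : 0 < cr x q p := by simp only [cr] at h ⊢; linarith
    have w := wedge h4 (by linarith) hq (shift hp) h'
    exact ⟨q, p, _, _, Or.inr ⟨rfl, rfl⟩, h', P4, P2, w.1, fun z hz => w.2 z (shift hz)⟩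
  · have w := wedge h2 h4 hp hq h
    exact ⟨p, q, _, _, Or.inl ⟨rfl, rfl⟩, h, P2, P4, w.1, w.2⟩

theorem thin {x p q z : ℝ × ℝ} (h : 0 < cr x p q) (h1 : 0 ≤ cr x p z) (h2 : 0 ≤ cr x z q)
    (d1 : |q.1 - p.1| ≤ 1 / 500) (d2 : |q.2 - p.2| ≤ 1 / 500)
    (far : 4 ≤ |p.1 - x.1| ∨ 4 ≤ |p.2 - x.2|) (z1 : |z.1 - p.1| ≤ 90) (z2 : |z.2 - p.2| ≤ 90) :
    ∃ k e1 e2, |e1| ≤ 1 / 20 ∧ |e2| ≤ 1 / 20 ∧ z.1 - p.1 - e1 = k * (p.1 - x.1) ∧
      z.2 - p.2 - e2 = k * (p.2 - x.2) := by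
  obtain ⟨s, hs⟩ : ∃ s, s = cr x z q / cr x p q := ⟨_, rfl⟩
  obtain ⟨t, ht⟩ : ∃ t, t = cr x p z / cr x p q := ⟨_, rfl⟩
  have s0 : 0 ≤ s := hs ▸ div_nonneg h2 h.le
  have t0 : 0 ≤ t := ht ▸ div_nonneg h1 h.le
  have e1 : z.1 - p.1 - t * (q.1 - p.1) = (s + t - 1) * (p.1 - x.1) := by
    rw [hs, ht]; field_simp; simp only [cr]; ring
  have e2 : z.2 - p.2 - t * (q.2 - p.2) = (s + t - 1) * (p.2 - x.2) := by
    rw [hs, ht]; field_simp; simp only [cr]; ring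
  have bd {z q v : ℝ} (e : z - t * q = (s + t - 1) * v) (hz : |z| ≤ 90) (hq : |q| ≤ 1 / 500)
      (hv : 4 ≤ |v|) : t ≤ 25 := by
    by_contra c
    have a1 : |z - t * q| ≤ 90 + t * (1 / 500) := by
      refine (abs_sub _ _).trans ?_
      rw [abs_mul, abs_of_nonneg t0]; gcongr
    rw [e, abs_mul, abs_of_nonneg (by linarith)] at a1
    nlinarith
  have t1 : t ≤ 25 := far.elim (bd e1 z1 d1) (bd e2 z2 d2)
  have b {q : ℝ} (hq : |q| ≤ 1 / 500) : |t * q| ≤ 1 / 20 := by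
    rw [abs_mul, abs_of_nonneg t0]; nlinarith [abs_nonneg q]
  exact ⟨_, _, _, b d1, b d2, e1, e2⟩

theorem cp {a b c d : ℝ} (A A' B B' C C' D D' L : ℝ) (ha : A ≤ a ∧ a ≤ A') (hb : B ≤ b ∧ b ≤ B')
    (hc : C ≤ c ∧ c ≤ C') (hd : D ≤ d ∧ d ≤ D')
    (h1 : L ≤ A * B ∧ L ≤ A * B' ∧ L ≤ A' * B ∧ L ≤ A' * B')
    (h2 : C * D < L ∧ C * D' < L ∧ C' * D < L ∧ C' * D' < L) : c * d < a * b := by
  have k1 : L ≤ a * b := by
    rcases le_total 0 a with h | h <;> rcases le_total 0 B with g | g <;>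
      rcases le_total 0 B' with g' | g' <;> nlinarith [ha.1, ha.2, hb.1, hb.2, h1.1, h1.2.1,
        h1.2.2.1, h1.2.2.2]
  have k2 : c * d < L := by
    rcases le_total 0 c with h | h <;> rcases le_total 0 D with g | g <;>
      rcases le_total 0 D' with g' | g' <;> nlinarith [hc.1, hc.2, hd.1, hd.2, h2.1, h2.2.1,
        h2.2.2.1, h2.2.2.2]
  linarith

end Pool.Agent.H.MP_cac92d_co
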