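import Pool.Agent.H.MP_cac92d_co.A

namespace Pool.Agent.H.MP_cac92d_co

open MeasureTheory Set Real
open scoped ENNReal

def dd : Fin 3 → ℝ × ℝ := ![(0, 0), (60, 0), (0, 60)]
def cc : Fin 7 → ℝ × ℝ := fun j => (12 + 2 * (j : ℕ), 18)

theorem ds {z c : ℝ × ℝ} (h : dist z c < 1 / 1000) :
    (c.1 - 1 / 1000 < z.1 ∧ z.1 < c.1 + 1 / 1000) ∧ c.2 - 1 / 1000 < z.2 ∧ z.2 < c.2 + 1 / 1000 := by
  rw [Prod.dist_eq, max_lt_iff, Real.dist_eq, Real.dist_eq, abs_lt, abs_lt] at h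
  exact ⟨⟨by linarith [h.1.1], by linarith [h.1.2]⟩, by linarith [h.2.1], by linarith [h.2.2]⟩

theorem cz {z : ℝ × ℝ} {j : Fin 7} (h : dist z (cc j) < 1 / 1000) :
    (11 ≤ z.1 ∧ z.1 ≤ 25) ∧ 17 ≤ z.2 ∧ z.2 ≤ 19 := by
  have := ds h
  have a : (0 : ℝ) ≤ (j : ℕ) := Nat.cast_nonneg _
  have b : ((j : ℕ) : ℝ) ≤ 6 := by exact_mod_cast Nat.lt_succ_iff.1 j.2
  simp only [cc] at this
  exact ⟨⟨by linarith [this.1.1], by linarith [this.1.2]⟩, by linarith [this.2.1],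
    by linarith [this.2.2]⟩

theorem caseA {x p q z w : ℝ × ℝ} {k : Fin 3} {i j : Fin 7} (hij : i ≠ j)
    (hp : dist p (dd k) < 1 / 1000) (hq : dist q (dd k) < 1 / 1000)
    (far : 4 ≤ |p.1 - x.1| ∨ 4 ≤ |p.2 - x.2|) (h : 0 < cr x p q)
    (hz : dist z (cc i) < 1 / 1000) (hw : dist w (cc j) < 1 / 1000)
    (z1 : 0 ≤ cr x p z ∧ 0 ≤ cr x z q) (w1 : 0 ≤ cr x p w ∧ 0 ≤ cr x w q) : False := by
  have P := ds hp
  have Q := ds hq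
  have Z := cz hz
  have W := cz hw
  have B : (-1 ≤ p.1 ∧ p.1 ≤ 61) ∧ (-1 ≤ p.2 ∧ p.2 ≤ 61) ∧ (p.2 ≤ 1 ∨ 59 ≤ p.2) := by
    fin_cases k <;> simp [dd] at P <;>
      refine ⟨⟨by linarith [P.1.1], by linarith [P.1.2]⟩, ⟨by linarith [P.2.1], by linarith [P.2.2]⟩, ?_⟩
    · left; linarith [P.2.2]
    · left; linarith [P.2.2]
    · right; linarith [P.2.1]
  have d1 : |q.1 - p.1| ≤ 1 / 500 := by
    rw [abs_le]; constructor <;> linarith [P.1.1, P.1.2, Q.1.1, Q.1.2]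
  have d2 : |q.2 - p.2| ≤ 1 / 500 := by
    rw [abs_le]; constructor <;> linarith [P.2.1, P.2.2, Q.2.1, Q.2.2]
  have u1 : |z.1 - p.1| ≤ 51 := by
    rw [abs_le]; constructor <;> linarith [Z.1.1, Z.1.2, B.1.1, B.1.2]
  have u2 : |z.2 - p.2| ≤ 51 := by
    rw [abs_le]; constructor <;> linarith [Z.2.1, Z.2.2, B.2.1.1, B.2.1.2]
  have u3 : |w.1 - p.1| ≤ 51 := by
    rw [abs_le]; constructor <;> linarith [W.1.1, W.1.2, B.1.1, B.1.2]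
  have u4 : |w.2 - p.2| ≤ 51 := by
    rw [abs_le]; constructor <;> linarith [W.2.1, W.2.2, B.2.1.1, B.2.1.2]
  obtain ⟨a, e1, e2, b1, b2, c1, c2⟩ := thin h z1.1 z1.2 d1 d2 far (by linarith) (by linarith)
  obtain ⟨b, f1, f2, b3, b4, c3, c4⟩ := thin h w1.1 w1.2 d1 d2 far (by linarith) (by linarith)
  have id : (z.2 - p.2) * (w.1 - z.1) = (z.1 - p.1) * (w.2 - z.2) - (z.1 - p.1) * f2
      - e1 * (w.2 - p.2) + e1 * f2 + (z.2 - p.2) * f1 + e2 * (w.1 - p.1) - e2 * f1 := by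
    have : (z.1 - p.1 - e1) * (w.2 - p.2 - f2) = (z.2 - p.2 - e2) * (w.1 - p.1 - f1) := by
      rw [c1, c2, c3, c4]; ring
    linarith only [this]
  have m {a b A B : ℝ} (ha : |a| ≤ A) (hb : |b| ≤ B) : -(A * B) ≤ a * b ∧ a * b ≤ A * B := by
    rw [← abs_le, abs_mul]; gcongr; exact (abs_nonneg _).trans ha
  have Z' := ds hz
  have W' := ds hw
  simp only [cc] at Z' W'
  have v1 : |w.2 - z.2| ≤ 1 / 500 := by
    rw [abs_le]; constructor <;> linarith [Z'.2.1, Z'.2.2, W'.2.1, W'.2.2]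
  have m1 := m u1 v1
  have m2 := m u1 b4
  have m3 := m b1 u4
  have m4 := m b1 b4
  have m5 := m u2 b3
  have m6 := m b2 u3
  have m7 := m b2 b3
  have up : |(z.2 - p.2) * (w.1 - z.1)| ≤ 11 := by
    rw [id, abs_le]
    constructor <;> linarith only [m1.1, m1.2, m2.1, m2.2, m3.1, m3.2, m4.1, m4.2, m5.1, m5.2, m6.1,
      m6.2, m7.1, m7.2]
  have l1 : 16 ≤ |z.2 - p.2| := by
    rw [le_abs]; rcases B.2.2 with c | c
    · left; linarith [Z.2.1]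
    · right; linarith [Z.2.2]
  have l2 : 1 ≤ |w.1 - z.1| := by
    rw [le_abs]
    rcases lt_or_gt_of_ne (Fin.val_ne_of_ne hij) with c | c
    · have : ((i : ℕ) : ℝ) + 1 ≤ (j : ℕ) := by exact_mod_cast c
      left; linarith [Z'.1.2, W'.1.1]
    · have : ((j : ℕ) : ℝ) + 1 ≤ (i : ℕ) := by exact_mod_cast c
      right; linarith [Z'.1.1, W'.1.2]
  rw [abs_mul] at up
  linarith only [up, mul_le_mul l1 l2 zero_le_one (abs_nonneg _)]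

theorem caseB {x p q z : ℝ × ℝ} {i j k : Fin 3} (h1 : i ≠ j) (h2 : i ≠ k) (h3 : j ≠ k)
    (hp : dist p (dd i) < 1 / 1000) (hq : dist q (dd j) < 1 / 1000)
    (n1 : |x.1 - (dd k).1| ≤ 5) (n2 : |x.2 - (dd k).2| ≤ 5) :
    cr x p q ≠ 0 ∧ (0 < cr x p q → (11 ≤ z.1 ∧ z.1 ≤ 25) ∧ 17 ≤ z.2 ∧ z.2 ≤ 19 →
      0 < cr x p z ∧ 0 < cr x z q) := by
  obtain ⟨⟨p1, p2⟩, p3, p4⟩ := ds hp
  obtain ⟨⟨q1, q2⟩, q3, q4⟩ := ds hq
  rw [abs_le] at n1 n2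
  obtain ⟨x1, x2⟩ := n1
  obtain ⟨x3, x4⟩ := n2
  have neg (h : cr x p q < 0) : cr x p q ≠ 0 ∧ (0 < cr x p q →
      (11 ≤ z.1 ∧ z.1 ≤ 25) ∧ 17 ≤ z.2 ∧ z.2 ≤ 19 → 0 < cr x p z ∧ 0 < cr x z q) :=
    ⟨h.ne, fun c => absurd h (not_lt.2 c.le)⟩
  fin_cases i <;> fin_cases j <;> fin_cases k <;> simp at h1 h2 h3 <;>
    simp [dd] at p1 p2 p3 p4 q1 q2 q3 q4 x1 x2 x3 x4 <;> norm_num at p1 p2 p3 p4 q1 q2 q3 q4
  · refine ⟨(sub_pos.2 (cp (-6) 6 (-66) (-54) (-66) (-54) 54 66 (-400) ?_ ?_ ?_ ?_ (by norm_num)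
      (by norm_num))).ne', fun _ ⟨⟨z1, z2⟩, z3, z4⟩ => ⟨sub_pos.2 (cp (-6) 6 (-48) (-36) (-66) (-54)
      6 30 (-300) ?_ ?_ ?_ ?_ (by norm_num) (by norm_num)), sub_pos.2 (cp 6 30 (-65.01) (-54) (-48) (-36)
      54.9 66 (-1960) ?_ ?_ ?_ ?_ (by norm_num) (by norm_num))⟩⟩ <;> constructor <;> linarith
  · refine neg (sub_neg.2 (cp (-6) 6 (-66) (-54) (-66) (-54) 54 66 (-400) ?_ ?_ ?_ ?_ (by norm_num)
      (by norm_num))) <;> constructor <;> linarith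
  · refine neg (sub_neg.2 (cp (-66) (-54) (-6) 6 54 66 (-66) (-54) (-400) ?_ ?_ ?_ ?_ (by norm_num)
      (by norm_num))) <;> constructor <;> linarith
  · refine ⟨(sub_pos.2 (cp 54 66 54 66 (-6) 6 (-6) 6 400 ?_ ?_ ?_ ?_ (by norm_num)
      (by norm_num))).ne', fun _ ⟨⟨z1, z2⟩, z3, z4⟩ => ⟨sub_pos.2 (cp 54 66 12 24 (-6) 6
      6 30 400 ?_ ?_ ?_ ?_ (by norm_num) (by norm_num)), sub_pos.2 (cp 6 30 54 66 12 24
      (-6) 6 300 ?_ ?_ ?_ ?_ (by norm_num) (by norm_num))⟩⟩ <;> constructor <;> linarith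
  · refine ⟨(sub_pos.2 (cp (-66) (-54) (-6) 6 54 66 (-66) (-54) (-400) ?_ ?_ ?_ ?_ (by norm_num)
      (by norm_num))).ne', fun _ ⟨⟨z1, z2⟩, z3, z4⟩ => ⟨sub_pos.2 (cp (-66) (-54) 12 24 54 66
      (-54) (-30) (-1600) ?_ ?_ ?_ ?_ (by norm_num) (by norm_num)), sub_pos.2 (cp (-54) (-30) (-6) 6
      12 24 (-66) (-54) (-400) ?_ ?_ ?_ ?_ (by norm_num) (by norm_num))⟩⟩ <;> constructor <;> linarith
  · refine neg (sub_neg.2 (cp 54 66 54 66 (-6) 6 (-6) 6 400 ?_ ?_ ?_ ?_ (by norm_num)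
      (by norm_num))) <;> constructor <;> linarith

end Pool.Agent.H.MP_cac92d_co
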